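import Pool.Agent.Y241.Mey.Bic

set_option autoImplicit false
open N6ef48c04

namespace Pool.Agent.Results.MP_964892_co.BicliqueCovers

/-!
# The cop number and the biclique cover number

Every connected graph `G` whose edges are the union of `b` complete bipartite graphs has cop number
`O(√b log n)`, and every connected intersection graph of subsets of a set with `u` elements has cop
number `O(√u log n)`. So Meyniel's bound `c(G) = O(√n)` holds for all connected graphs on `n`
vertices with biclique cover number, or with intersection number (edge clique cover number), at most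
`n / (log n + 1)²`. More generally it is enough to cover the arcs which do not end in the closed
neighbourhood of a set `S` of guards.

Proof idea. The entropy method of the starting files (`W149.VD`) is carried out with the members
`(A, B)` of the cover as ends: the end concerns the robber if he is in `A`, and it is answered by
every cop in `A`, because he attacks all vertices of `B`. A cop who imitates the robber of the game
with exchanged roles answers the end. So `O(√m log n)` cops force a position in which all the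
neighbours of the robber are attacked; then he cannot move, and one more cop walks to him.
-/

/-- Let `G` be a connected graph on `n` vertices.
(1) Let `S` be a set of vertices and let `A e`, `B e` (`e ∈ E`, `m` members) be sets of vertices
such that every vertex of `A e` is equal or adjacent to every vertex of `B e`. If for every edge `x z`
(in both directions) `z` is in the closed neighbourhood of `S`, or `x ∈ A e`, `z ∈ B e` for some `e`,
then `c(G) ≤ |S| + (27 log n + 54 log m + 23) √m + 1`, and `c(G) ≤ |S| + 82 √n` if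
`m (log n + 1)² ≤ n`.
(2) If the edges of `G` are covered by `b` complete bipartite subgraphs `(P i, Q i)`, then
`c(G) ≤ (27 log n + 54 log (2 b) + 23) √(2 b) + 1`, and `c(G) ≤ 82 √n` if `2 b (log n + 1)² ≤ n`.
(3) If `G` is the intersection graph of the subsets `F v` of a set `U` with `u` elements, then
`c(G) ≤ (27 log n + 54 log u + 23) √u + 1`, and `c(G) ≤ 82 √n` if `u (log n + 1)² ≤ n`. -/
theorem result {V : Type*} [Fintype V] (G : SimpleGraph V) (hG : G.Connected) :
    (∀ (E : Type) [Fintype E] (A B : E → Set V) (S : Finset V),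
      (∀ e, ∀ a ∈ A e, ∀ b ∈ B e, a = b ∨ G.Adj a b) →
      (∀ x z, G.Adj x z → (∃ s ∈ S, s = z ∨ G.Adj s z) ∨ ∃ e, x ∈ A e ∧ z ∈ B e) →
      (copNumber G : ℝ) ≤ S.card + (27 * Real.log (Fintype.card V) +
          54 * Real.log (Fintype.card E) + 23) * √(Fintype.card E) + 1 ∧
        ((Fintype.card E : ℝ) * (Real.log (Fintype.card V) + 1) ^ 2 ≤ Fintype.card V →
          (copNumber G : ℝ) ≤ S.card + 82 * √(Fintype.card V))) ∧
    (∀ (b : ℕ) (P Q : Fin b → Set V), (∀ i, ∀ p ∈ P i, ∀ q ∈ Q i, G.Adj p q) →
      (∀ x z, G.Adj x z → ∃ i, (x ∈ P i ∧ z ∈ Q i) ∨ (z ∈ P i ∧ x ∈ Q i)) →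
      (copNumber G : ℝ) ≤ (27 * Real.log (Fintype.card V) +
          54 * Real.log (2 * b) + 23) * √(2 * b) + 1 ∧
        (2 * (b : ℝ) * (Real.log (Fintype.card V) + 1) ^ 2 ≤ Fintype.card V →
          (copNumber G : ℝ) ≤ 82 * √(Fintype.card V))) ∧
    (∀ (u : ℕ) (F : V → Set (Fin u)), (∀ x z, G.Adj x z ↔ x ≠ z ∧ (F x ∩ F z).Nonempty) →
      (copNumber G : ℝ) ≤ (27 * Real.log (Fintype.card V) +
          54 * Real.log u + 23) * √u + 1 ∧
        ((u : ℝ) * (Real.log (Fintype.card V) + 1) ^ 2 ≤ Fintype.card V →
          (copNumber G : ℝ) ≤ 82 * √(Fintype.card V))) := by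
  have : Nonempty V := hG.nonempty
  have hn1 : (1 : ℝ) ≤ Fintype.card V := by exact_mod_cast Fintype.card_pos
  have hlog : 0 ≤ Real.log (Fintype.card V) := Real.log_nonneg hn1
  have hs1 : 1 ≤ √(Fintype.card V : ℝ) := Real.one_le_sqrt.2 hn1
  have main : ∀ (E : Type) [Fintype E] (A B : E → Set V) (S : Finset V),
      (∀ e, ∀ a ∈ A e, ∀ b ∈ B e, a = b ∨ G.Adj a b) →
      (∀ x z, G.Adj x z → (∃ s ∈ S, s = z ∨ G.Adj s z) ∨ ∃ e, x ∈ A e ∧ z ∈ B e) →
      (copNumber G : ℝ) ≤ S.card + (27 * Real.log (Fintype.card V) +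
          54 * Real.log (Fintype.card E) + 23) * √(Fintype.card E) + 1 ∧
        ((Fintype.card E : ℝ) * (Real.log (Fintype.card V) + 1) ^ 2 ≤ Fintype.card V →
          (copNumber G : ℝ) ≤ S.card + 82 * √(Fintype.card V)) := by
    intro E _ A B S hAB hcov
    have h1 := Pool.Agent.Y241.Mey.bc_bound G hG A B hAB S hcov
    refine ⟨h1, fun h => ?_⟩
    set m : ℝ := (Fintype.card E : ℝ) with hm
    have hm0 : 0 ≤ m := Nat.cast_nonneg _
    have hmn : m ≤ Fintype.card V := by nlinarith [mul_nonneg hm0 (sq_nonneg (Real.log (Fintype.card V : ℝ))), mul_nonneg hm0 hlog]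
    have hlm : Real.log m ≤ Real.log (Fintype.card V) := by
      rcases hm0.eq_or_lt with h0 | h0
      · rw [← h0, Real.log_zero]; exact hlog
      · exact Real.log_le_log h0 hmn
    have h2 : √m * (Real.log (Fintype.card V) + 1) ≤ √(Fintype.card V : ℝ) := by
      apply Real.le_sqrt_of_sq_le
      rw [mul_pow, Real.sq_sqrt hm0]
      exact h
    have h3 : 0 ≤ √m := Real.sqrt_nonneg _
    nlinarith
  refine ⟨main, ?_, ?_⟩
  · intro b P Q hPQ hcov
    have h1 := main (Fin b ⊕ Fin b) (Sum.elim P Q) (Sum.elim Q P) ∅ (by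
      rintro (i | i) a ha c hc
      · exact Or.inr (hPQ i a ha c hc)
      · exact Or.inr (hPQ i c hc a ha).symm) (by
      intro x z hz
      right
      obtain ⟨i, h | h⟩ := hcov x z hz
      · exact ⟨Sum.inl i, h.1, h.2⟩
      · exact ⟨Sum.inr i, h.2, h.1⟩)
    have hc : (Fintype.card (Fin b ⊕ Fin b) : ℝ) = 2 * b := by
      rw [Fintype.card_sum, Fintype.card_fin]; push_cast; ring
    rw [hc, Finset.card_empty, Nat.cast_zero, zero_add, zero_add] at h1
    exact h1
  · intro u F hF
    have h1 := main (Fin u) (fun i => {v | i ∈ F v}) (fun i => {v | i ∈ F v}) ∅ (by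
      intro i a ha c hc
      by_cases hac : a = c
      · exact Or.inl hac
      · exact Or.inr ((hF a c).2 ⟨hac, i, ha, hc⟩)) (by
      intro x z hz
      obtain ⟨-, i, h1, h2⟩ := (hF x z).1 hz
      exact Or.inr ⟨i, h1, h2⟩)
    rw [Fintype.card_fin, Finset.card_empty, Nat.cast_zero, zero_add, zero_add] at h1
    exact h1

end Pool.Agent.Results.MP_964892_co.BicliqueCovers
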