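import Mathlib
import Pool.Prelude.Def_F_8db9d53c
import Pool.Agent.Y392.Mey.Comm

set_option autoImplicit false
open N6ef48c04

namespace Pool.Agent.Results.MP_964892_co.CommutingAutomorphisms

/-!
# Meyniel's bound for graphs with a nearly commutative group of automorphisms with few orbits

Part (1) contains the case of a commutative group, where the first factor is `1`. The group need
not act freely. So the theorem covers the connected abelian covers of all multigraphs on at most
`k` vertices, bi-Cayley and Haar graphs of commutative groups, and the Cayley graphs of all groups
with commuting probability at least `ε` (for instance of the groups with a commutative subgroup of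
bounded index, and of the groups with a commutator subgroup of bounded order).

Proof idea. A cop has phase `g` if he is at `g r`, where `r` is the vertex of the robber. First let
the group be commutative. Guards, a greedy set of `O(k √n)` cops, keep their phases and leave only
`O(k √n)` kinds of moves to the robber. To each of them belongs a chaser, whose phase the cops can
multiply by the elements of a certain subset of the group when this move is made. An induction over
subgroups `W` reduces the problem to the moves which only allow changes of phase inside `W`; modulo
`W` such a move from one orbit to another is a fixed translation, so the robber has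
polylogarithmically many places modulo `W` for a polylogarithmic time. In this last case the cops
first get within distance `log ^ 2 n` of the robber's translates, from then on they follow at this
delay, and when they have all the necessary phases they occupy all places which the robber may have
reached, up to `W`. In general squads of cops, indexed by the commutator subgroup, play on the
quotient graph; and by a theorem of P. M. Neumann, proved in `Y392/Neu`, a finite group in which
many pairs commute has a subgroup of bounded index with a commutator subgroup of bounded order.
-/

/-- Let `G` be a connected graph on `n` vertices and `Γ` a group of automorphisms of `G` such that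
every vertex is in the orbit of one of at most `k` vertices.
(1) `c(G) ≤ |[Γ, Γ]| ((2 k + 433) √n + k + k ^ 2 ((log n + 1) ^ 2 + k + 2) ^ (k ^ 2))`.
(2) If at least `ε |Γ| ^ 2` pairs of elements of `Γ` commute then `c(G) ≤ C √n`, where `C` only
depends on `k` and `ε > 0`. -/
theorem result (k : ℕ) :
    (∀ (V : Type) [Fintype V] (G : SimpleGraph V), G.Connected →
      ∀ (Γ : Subgroup (G ≃g G)) (S : Finset V), S.card ≤ k →
      (∀ x, ∃ s ∈ S, ∃ a ∈ Γ, a s = x) →
      (copNumber G : ℝ) ≤ Nat.card (commutator Γ) *
        ((2 * k + 433) * √(Fintype.card V : ℝ) + k +
          (k : ℝ) ^ 2 * ((Real.log (Fintype.card V) + 1) ^ 2 + k + 2) ^ (k ^ 2))) ∧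
    ∀ ε : ℝ, 0 < ε → ∃ C : ℝ, ∀ (V : Type) [Fintype V] (G : SimpleGraph V), G.Connected →
      ∀ Γ : Subgroup (G ≃g G),
      ε * (Nat.card Γ : ℝ) ^ 2 ≤ Nat.card {p : Γ × Γ // p.1 * p.2 = p.2 * p.1} →
      ∀ S : Finset V, S.card ≤ k → (∀ x, ∃ s ∈ S, ∃ a ∈ Γ, a s = x) →
      (copNumber G : ℝ) ≤ C * √(Fintype.card V : ℝ) :=
  ⟨fun V _ G hG Γ S hS hcov => Pool.Agent.Y392.Mey.commutator_bound k V G hG Γ S hS hcov,
    fun ε hε => Pool.Agent.Y392.Mey.comm_bound k ε hε⟩

end Pool.Agent.Results.MP_964892_co.CommutingAutomorphisms
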