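import Pool.Agent.Y649.EX.Final
import Pool.Agent.Y421.EX.Place
import Pool.Agent.Y421.EX.Spec
import Pool.Agent.Y515.EX.Team2
import Pool.Agent.Y407.EX.Dense
import Pool.Agent.Y936.EX.Team1

set_option autoImplicit false

open scoped Classical

open N6ef48c04

namespace Pool.Agent.Results.MP_964892_co.NearOptimalExpanders

open Pool.Agent.Y649.EX

/-!
# Meyniel's bound for near-optimal expanders and for pseudorandom graphs

`nb G S` is the closed neighbourhood of the set `S` of vertices (the members of `S` and their
neighbours), so `(nb G)^[j] S` is the ball of radius `j` around `S`.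

Prałat and Wormald proved Meyniel's bound for random graphs; their general theorem needs balls
whose sizes are asymptotically exact, `|N_j(S)| ~ |S| d ^ j`. Here the expansion only has to be
optimal up to a constant factor, and only at two radii. So the theorem covers all pseudorandom
graphs of polynomial degree.

Proof idea. Let `b` bound the size of the balls of radius `t` and `D` the size of the closed
neighbourhoods, `b ≤ √n ≤ b D`. Two teams of `O(√n)` cops stand at random vertices. The robber is
at `v`. The cops of the first team within distance `t + 1` of the places `u` where the robber can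
be after `t` moves are matched with these places; by a union bound over the possible Hall
violators, all but at most `√n / D` places are matched. For these exceptional places, the at most
`√n` places where the robber can be one move later are matched with the cops of the second team
within distance `t + 2`. So the robber is caught within `t + 2` rounds. If all balls of radius `2`
have at least `c n` vertices, the first team is replaced by at most `√n` cops who stay where they
are and leave at most `√n` safe places in every closed neighbourhood.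
-/

/-- Some number `k ≤ K √n` of cops have starting vertices from which they catch the robber,
wherever he starts, within `m ≤ T` rounds; in particular the cop number is at most `K √n`. -/
def FewCops {V : Type} [Fintype V] (G : SimpleGraph V) (K T : ℝ) : Prop :=
  (copNumber G : ℝ) ≤ K * √(Fintype.card V : ℝ) ∧
    ∃ k m : ℕ, (k : ℝ) ≤ K * √(Fintype.card V : ℝ) ∧ (m : ℝ) ≤ T ∧
      ∃ c : Fin k → V, ∀ r : V, CopsCatchWithin G k m c r

theorem fewCops_of_winIn {V : Type} [Fintype V] (G : SimpleGraph V) (K T : ℝ) (k m : ℕ)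
    (hk : (k : ℝ) ≤ K * √(Fintype.card V : ℝ)) (hm : (m : ℝ) ≤ T) (h : WinIn G k m) :
    FewCops G K T :=
  ⟨le_trans (by exact_mod_cast copNumber_le_of_winIn G k m h) hk, k, m, hk, hm, h⟩

/-- Meyniel's bound `c(G) ≤ K √n` holds, with `K` only depending on `c` (and `ε`, `C`), and the
robber is caught in a bounded time, for the following graphs on `n` vertices.
(1) All balls of radius `2` have at least `c n` vertices.
(2) There are `t`, `b ≥ log n` and `D ≥ log n` with `b ≤ √n ≤ b D` such that the balls of radius
`t` have at most `b` vertices, closed neighbourhoods have at most `D` vertices, and for every set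
`S` of vertices the balls of radius `t + 1` and `t + 2` around `S` have at least
`c min (b D |S|, n)` and `c min (b D ^ 2 |S|, n)` vertices.
(3) For some `d ≥ n ^ ε` the closed neighbourhoods have at most `d / c` vertices, and
`|N[S]| ≥ c min (d |S|, n)` for every set `S` of vertices.
(4) Pseudorandom graphs: `G` is `d`-regular, `d ≥ n ^ ε`, and the adjacency matrix `M` satisfies
`|M x|² ≤ C d |x|²` for all vectors `x` with sum `0` (case `A = V`); or `G` is bipartite with a
side `A`, and this holds for the vectors `x` whose sums over both sides are `0`. -/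
theorem result :
    (∀ c : ℝ, 0 < c → ∃ K : ℝ, ∀ (V : Type) [Fintype V] (G : SimpleGraph V),
      (∀ v : V, c * Fintype.card V ≤ ((nb G)^[2] {v}).card) → FewCops G K 2) ∧
    (∀ c : ℝ, 0 < c → ∃ K : ℝ, ∀ (V : Type) [Fintype V] (G : SimpleGraph V) (t : ℕ) (b D : ℝ),
      Real.log (Fintype.card V) ≤ b → Real.log (Fintype.card V) ≤ D →
      b ≤ √(Fintype.card V : ℝ) → √(Fintype.card V : ℝ) ≤ b * D →
      (∀ v : V, (((nb G)^[t] {v}).card : ℝ) ≤ b) →
      (∀ v : V, ((nb G {v}).card : ℝ) ≤ D) →
      (∀ S : Finset V, c * min (b * D * S.card) (Fintype.card V) ≤ ((nb G)^[t + 1] S).card) →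
      (∀ S : Finset V, c * min (b * D ^ 2 * S.card) (Fintype.card V) ≤
        ((nb G)^[t + 2] S).card) →
      FewCops G K (t + 2)) ∧
    (∀ ε c : ℝ, 0 < ε → 0 < c → ∃ K : ℝ, ∀ (V : Type) [Fintype V] (G : SimpleGraph V) (d : ℝ),
      (Fintype.card V : ℝ) ^ ε ≤ d →
      (∀ v : V, ((nb G {v}).card : ℝ) ≤ d / c) →
      (∀ S : Finset V, c * min (d * S.card) (Fintype.card V) ≤ (nb G S).card) →
      FewCops G K (1 / (2 * ε) + 2)) ∧
    (∀ ε C : ℝ, 0 < ε → ∃ K : ℝ, ∀ (V : Type) [Fintype V] (G : SimpleGraph V) (d : ℕ)
      (A : Finset V), (Fintype.card V : ℝ) ^ ε ≤ d → (∀ v, G.degree v = d) →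
      (A = Finset.univ ∨ ∀ u v, G.Adj u v → (u ∈ A ↔ v ∉ A)) →
      (∀ x : V → ℝ, ∑ v ∈ A, x v = 0 → ∑ v ∈ Aᶜ, x v = 0 →
        ∑ v, (∑ w ∈ G.neighborFinset v, x w) ^ 2 ≤ C * d * ∑ v, x v ^ 2) →
      FewCops G K (1 / (2 * ε) + 2)) := by
  have hP : S_PLACE := Pool.Agent.Y421.EX.place
  have hD : S_DENSE := Pool.Agent.Y407.EX.dense hP
  have hC : S_CRIT := crit (Pool.Agent.Y936.EX.team1 hP) (Pool.Agent.Y515.EX.team2 hP)
  have hS : S_SPEC := Pool.Agent.Y421.EX.spec
  -- graphs with at most one vertex
  have small : ∀ (V : Type) [Fintype V] (G : SimpleGraph V) (K T : ℝ), 1 ≤ K → 0 ≤ T →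
      Fintype.card V < 2 → FewCops G K T := by
    intro V _ G K T hK hT hn
    refine fewCops_of_winIn G K T _ 0 ?_ (by simpa using hT) (winIn_card G)
    have h2 : (0 : ℝ) ≤ √(Fintype.card V : ℝ) := Real.sqrt_nonneg _
    have h1 : (Fintype.card V : ℝ) ≤ √(Fintype.card V : ℝ) := by
      have h3 : Fintype.card V = 0 ∨ Fintype.card V = 1 := by omega
      rcases h3 with h | h <;> simp [h]
    nlinarith
  refine ⟨fun c hc => ⟨16 / c + 3, fun V _ G h => ?_⟩,
    fun c hc => ⟨32 / c + 2, fun V _ G t b D h1 h2 h3 h4 h5 h6 h7 h8 => ?_⟩,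
    fun ε c hε hc => ?_, fun ε C hε => ?_⟩
  · have hK : (1 : ℝ) ≤ 16 / c + 3 := by
      have : 0 < 16 / c := by positivity
      linarith
    by_cases hn : Fintype.card V < 2
    · exact small V G _ _ hK (by norm_num) hn
    · obtain ⟨k, hk, hw⟩ := hD V G c hc (not_lt.1 hn) h
      exact fewCops_of_winIn G _ _ k 2 hk (by norm_num) hw
  · have hK : (1 : ℝ) ≤ 32 / c + 2 := by
      have : 0 < 32 / c := by positivity
      linarith
    by_cases hn : Fintype.card V < 2
    · exact small V G _ _ hK (by positivity) hn
    · obtain ⟨k, hk, hw⟩ := hC V G c b D t hc (not_lt.1 hn) h1 h3 h4 h2 h5 h6 h7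
        (fun S => by
          have e := h8 S
          rwa [pow_two, ← mul_assoc] at e)
      exact fewCops_of_winIn G _ _ k (t + 2) hk (by push_cast; exact le_rfl) hw
  · obtain ⟨K, hK⟩ := expander hC hD ε c hε hc
    refine ⟨K, fun V _ G d h1 h2 h3 => ?_⟩
    obtain ⟨k, T, hk, hT, hw⟩ := hK V G d h1 h2 h3
    exact fewCops_of_winIn G K _ k T hk hT hw
  · obtain ⟨K, hK⟩ := pseudorandom hC hD hS ε (max C 1) hε (le_max_right _ _)
    refine ⟨K, fun V _ G d A h1 h2 h3 h4 => ?_⟩
    obtain ⟨k, T, hk, hT, hw⟩ := hK V G A d h1 h2 h3 (fun x hx hx' => by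
      refine le_trans (h4 x hx hx') ?_
      have h5 : (0 : ℝ) ≤ d * ∑ v, x v ^ 2 :=
        mul_nonneg (Nat.cast_nonneg _) (Finset.sum_nonneg fun v _ => sq_nonneg _)
      have h6 := mul_le_mul_of_nonneg_right (le_max_left C 1) h5
      calc C * d * ∑ v, x v ^ 2 = C * (d * ∑ v, x v ^ 2) := by ring
        _ ≤ max C 1 * (d * ∑ v, x v ^ 2) := h6
        _ = max C 1 * d * ∑ v, x v ^ 2 := by ring)
    exact fewCops_of_winIn G K _ k T hk hT hw

end Pool.Agent.Results.MP_964892_co.NearOptimalExpanders
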